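import Mathlib
import Pool.Agent.Lib.MP_f2058c_gt.Defs
import Pool.Agent.Lib.MP_f2058c_gt.Fin3

namespace Pool.Agent.Results.MP_f2058c_gt.GraphSpheres

open Pool.Agent.Lib.MP_f2058c_gt

/-- **Partial answer to Q1: no graph manifold.**  Let `M` be a connected sum of one or more homology 3-spheres
given by plumbing trees `(e, F)` (root of weight `e`, forest `F` below it) which are unimodular
(`|det| = 1`), have a root of valency at least 3, and are reduced: at every vertex of valency at least 3 the
branches that are chains have determinant different from `0, 1, -1`.  (Normal forms of the prime graph manifold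
homology spheres other than `S^3` are of this kind.)  Then `τ_p(M) ≠ 1 = τ_p(S^3)` for all sufficiently large
primes `p`.  Here `bp, bm` are the numbers of positive and negative eigenvalues of the linking matrix, whose sum is
the number of vertices; the theorem holds for all `bp, bm` with this sum. -/
theorem result (L : List (ℤ × Forest)) (hL : L ≠ [])
    (h : ∀ T ∈ L, 3 ≤ Forest.len T.2 ∧ Forest.LeavesOK T.2 ∧ Forest.Red T.2 ∧ |Forest.det T.1 T.2| = 1) :
    ∃ p₀ : ℕ, ∀ p : ℕ, p.Prime → p₀ ≤ p → ∀ bp bm : ℕ,
      bp + bm = (L.map fun T => Forest.card T.2 + 1).sum → tau p L bp bm ≠ 1 :=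
  final L hL h

end Pool.Agent.Results.MP_f2058c_gt.GraphSpheres
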