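import Pool.Agent.Lib.MP_f2058c_gt_S.FFin

namespace Pool.Agent.Results.MP_f2058c_gt.KnotSurgeries

open Pool.MP_f2058c_gt.Spl

/-- **Q1 for the surgeries on a knot.**  Let `a`, `b` be the cyclotomic coefficients of the coloured Jones
polynomials of two knots `K1`, `K2`, and let `M_n` be the surgery on the Hopf link with `K1`, `K2` tied in its
components and with framings `n`, `0` (for the unknot `K1` this is the surgery `-1/n` on `K2`). Suppose that
some coloured Jones polynomial of `K2` is not `1`. Then for all but finitely many `n` there are only finitely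
many primes `p` with `τ_p(M_n) = 1 = τ_p(S^3)`; and if `(T - 1)^(M + 1)` does not divide `b_k`, `k ≥ 1`, then
there are at most `M + k - 1` exceptions `n ≠ 0`. -/
theorem result (a b : ℕ → LaurentPolynomial ℤ) (ha : a 0 = 1) (hb : b 0 = 1)
    (h : ∃ m, 1 ≤ m ∧ J b m ≠ 1) :
    {n : ℤ | n ≠ 0 ∧ ∀ R : ℕ, ∃ p, R ≤ p ∧ p.Prime ∧ tauF p n a b = 1}.Finite ∧
    ∀ k M : ℕ, 1 ≤ k → ¬ (LaurentPolynomial.T 1 - 1) ^ (M + 1) ∣ b k →
      {n : ℤ | n ≠ 0 ∧ ∀ R : ℕ, ∃ p, R ≤ p ∧ p.Prime ∧ tauF p n a b = 1}.ncard ≤ M + k - 1 :=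
  ⟨finalF ha hb h, fun _ _ hk hM => (bound ha hb hk hM).2⟩

end Pool.Agent.Results.MP_f2058c_gt.KnotSurgeries
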