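import Pool.Agent.Lib.MP_f2058c_gt_S.Fin

namespace Pool.Agent.Results.MP_f2058c_gt.SelfSplices

open Pool.MP_f2058c_gt.Spl

/-- **Q1 for splices of a knot with itself.**  Let `a`, `b` be the cyclotomic coefficients of the coloured
Jones polynomials of two knots `K1`, `K2`, and suppose that `J_{K1}(n)^l = J_{K2}(n)^m` for all `n`, with
`l, m ≥ 1` (for instance `K1 = K2`, or `K1`, `K2` are connected sums of `m` and of `l` copies of one knot). Let
`M` be the splice of `K1` and `K2`. If all coloured Jones polynomials of `K1`, `K2` are trivial then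
`τ_r(M) = 1 = τ_r(S^3)` for all odd `r ≥ 3`; otherwise `τ_p(M) ≠ 1` for all sufficiently large primes `p`. -/
theorem result (a b : ℕ → LaurentPolynomial ℤ) (ha : a 0 = 1) (hb : b 0 = 1) (l m : ℕ)
    (hl : 1 ≤ l) (hm : 1 ≤ m) (hJ : ∀ n, 1 ≤ n → J a n ^ l = J b n ^ m) :
    ((∀ n, 1 ≤ n → J a n = 1 ∧ J b n = 1) → ∀ r, Odd r → 3 ≤ r → tau r a b = 1) ∧
    ((∃ n, 1 ≤ n ∧ ¬(J a n = 1 ∧ J b n = 1)) →
      ∃ p₀ : ℕ, ∀ p : ℕ, p.Prime → p₀ ≤ p → tau p a b ≠ 1) :=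
  final ha hb hl hm hJ

end Pool.Agent.Results.MP_f2058c_gt.SelfSplices
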