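import Pool.Agent.Lib.MP_f2058c_gt_S.Num

namespace Pool.Agent.Results.MP_f2058c_gt.SplicePairs

open Pool.MP_f2058c_gt.Spl

/-- **Q1 for splices of two arbitrary knots: a divisibility condition.**  Let `a`, `b` be the cyclotomic
coefficients of the coloured Jones polynomials of two knots `K1`, `K2`, and let `M` be the splice of `K1` and
`K2`. If `τ_r(M) = 1 = τ_r(S^3)` for all odd `r ≥ 3` then `(T - 1)^2 (T^4 + T^3 + T^2 + T + 1)` divides
`a_1 b_1` in `ℤ[T, T⁻¹]`. -/
theorem result (a b : ℕ → LaurentPolynomial ℤ) (ha : a 0 = 1) (hb : b 0 = 1)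
    (h : ∀ r : ℕ, Odd r → 3 ≤ r → tau r a b = 1) :
    (LaurentPolynomial.T 1 - 1) ^ 2 * (LaurentPolynomial.T 4 + LaurentPolynomial.T 3 +
      LaurentPolynomial.T 2 + LaurentPolynomial.T 1 + 1) ∣ a 1 * b 1 :=
  main ha hb h

end Pool.Agent.Results.MP_f2058c_gt.SplicePairs
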